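import Pool.Agent.MP_52bf41_ag.H12.Spec
import Pool.Agent.MP_52bf41_ag.H12.Thick

/-! Devissage over an Artinian local ring. -/

open AlgebraicGeometry CategoryTheory Limits IsLocalRing

namespace Pool.Agent.MP_52bf41_ag.H57

open H12

section Alg

variable {A B : Type} [CommRing A] [CommRing B]

theorem mem_max_of_rel [IsLocalRing A] [Algebra A B] [Module.Flat A B] {I : Ideal A} {ε : A}
    (hε : ε ∉ I) {x : B} {n : ℕ} (a : Fin n → A) (ha : ∀ i, a i ∈ I) (y : Fin n → B)
    (hg : ∑ i, a i • y i = ε • x) : x ∈ (maximalIdeal A).map (algebraMap A B) := by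
  have hrel : ∑ i : Option (Fin n), (Option.elim i ε fun l => -a l) • (Option.elim i x y) = 0 := by
    simp [Fintype.sum_option, hg]
  obtain ⟨k, b, z, h1, h2⟩ := Module.Flat.isTrivialRelation_of_sum_smul_eq_zero (R := A)
    (M := B) (f := fun i => Option.elim i ε fun l => -a l) (x := fun i => Option.elim i x y) hrel
  have h3 : x = ∑ j, b none j • z j := h1 none
  rw [h3]
  refine Ideal.sum_mem _ fun j _ => ?_
  rw [Algebra.smul_def]
  refine Ideal.mul_mem_right _ _ (Ideal.mem_map_of_mem _ ?_)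
  by_contra hu
  have hu' : IsUnit (b none j) := notMem_maximalIdeal.mp hu
  have h4 := h2 j
  rw [Fintype.sum_option] at h4
  have h5 : ε * b none j ∈ I := by
    have e2 : ε * b none j = -∑ i, -a i * b (some i) j := eq_neg_of_add_eq_zero_left h4
    rw [e2]
    exact I.neg_mem (Ideal.sum_mem _ fun i _ => Ideal.mul_mem_right _ _ (I.neg_mem (ha i)))
  exact hε ((Ideal.mul_unit_mem_iff_mem I hu').mp h5)

theorem mem_max_of_flat [IsLocalRing A] {φ : A →+* B} (hφ : φ.Flat) {I : Ideal A} {ε : A}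
    (hε : ε ∉ I) {x : B} (hx : φ ε * x ∈ I.map φ) : x ∈ (maximalIdeal A).map φ := by
  obtain ⟨n, y, g, hg⟩ := (Submodule.mem_span_set' (R := B) (s := φ '' I)).mp hx
  have hg2 : ∀ i, ∃ a, a ∈ I ∧ φ a = g i := fun i => (g i).2
  choose a ha ha' using hg2
  refine @mem_max_of_rel A B _ _ _ φ.toAlgebra hφ I ε hε x n a ha y ?_
  change ∑ i, φ (a i) * y i = φ ε * x
  rw [← hg]
  exact Finset.sum_congr rfl fun i _ => by rw [ha', smul_eq_mul, mul_comm]

theorem exists_step [IsLocalRing A] [IsArtinianRing A] {I : Ideal A} (hI : I ≠ ⊥) :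
    ∃ (J : Ideal A) (ε : A), J < I ∧ ε ∉ J ∧ I = J ⊔ Ideal.span {ε} ∧
      ∀ a ∈ maximalIdeal A, ε * a ∈ J := by
  obtain ⟨J, -, hJ⟩ := exists_le_covBy_of_lt (bot_lt_iff_ne_bot.mpr hI)
  have key : ∀ e ∈ I, e ∉ J → I = J ⊔ Ideal.span {e} := fun e he he' => by
    refine ((hJ.eq_or_eq le_sup_left
      (sup_le hJ.le ((Ideal.span_singleton_le_iff_mem _).mpr he))).resolve_left fun h => ?_).symm
    exact he' (h ▸ Ideal.mem_sup_right (Ideal.mem_span_singleton_self e))
  obtain ⟨ε, h1, h2⟩ := SetLike.exists_of_lt hJ.lt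
  refine ⟨J, ε, hJ.lt, h2, key ε h1 h2, fun a ha => ?_⟩
  by_contra h3
  have h4 := key _ (I.mul_mem_right a h1) h3
  rw [h4] at h1
  obtain ⟨u, hu, v, hv, e⟩ := Submodule.mem_sup.mp h1
  obtain ⟨r, rfl⟩ := Ideal.mem_span_singleton'.mp hv
  have h5 : IsUnit (1 - r * a) :=
    isUnit_one_sub_self_of_mem_nonunits _ (Ideal.mul_mem_left _ r ha)
  have h6 : ε * (1 - r * a) ∈ J := by
    have : ε * (1 - r * a) = u := by linear_combination -e
    rwa [this]
  exact h2 ((Ideal.mul_unit_mem_iff_mem J h5).mp h6)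

theorem split_mem {φ : A →+* B} {J : Ideal A} {ε : A} {x : B}
    (hx : x ∈ (J ⊔ Ideal.span {ε}).map φ) : ∃ d, x - φ ε * d ∈ J.map φ := by
  rw [Ideal.map_sup, Ideal.map_span, Set.image_singleton] at hx
  obtain ⟨u, hu, v, hv, e⟩ := Submodule.mem_sup.mp hx
  obtain ⟨r, rfl⟩ := Ideal.mem_span_singleton'.mp hv
  exact ⟨r, by rwa [← e, mul_comm, add_sub_cancel_right]⟩

theorem mul_mem_of_max [IsLocalRing A] {φ : A →+* B} {J : Ideal A} {ε : A}
    (h : ∀ a ∈ maximalIdeal A, ε * a ∈ J) {x : B} (hx : x ∈ (maximalIdeal A).map φ) :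
    φ ε * x ∈ J.map φ := by
  have : (maximalIdeal A).map φ ≤ (J.map φ).colon {φ ε} :=
    Ideal.map_le_iff_le_comap.mpr fun a ha => by
      rw [Ideal.mem_comap, Submodule.mem_colon_singleton, smul_eq_mul, ← map_mul, mul_comm]
      exact Ideal.mem_map_of_mem _ (h a ha)
  have h2 := this hx
  rwa [Submodule.mem_colon_singleton, smul_eq_mul, mul_comm] at h2

end Alg

section Geo

variable {A : Type} [CommRing A] {C : Scheme.{0}} {p : C ⟶ Spec (.of A)}

theorem res_mem {U V : C.Opens} (h : V ≤ U) {I : Ideal A} {x : Γ(C, U)}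
    (hx : x ∈ I.map (alg p U)) : res h x ∈ I.map (alg p V) := by
  have := Ideal.mem_map_of_mem (res h) hx
  rwa [Ideal.map_map, show (res h).comp (alg p U) = alg p V from
    RingHom.ext fun a => res_alg p h a] at this

theorem aff_inf (p : C ⟶ Spec (.of A)) [IsSeparated p] {U V : C.Opens} (hU : IsAffineOpen U)
    (hV : IsAffineOpen V) : IsAffineOpen (U ⊓ V) :=
  isAffineHom_diagonal_iff.mp (inferInstance : IsAffineHom (pullback.diagonal p)) ⊤
    (isAffineOpen_top _) U le_top V le_top hU hV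

theorem pre_inf {C0 : Scheme.{0}} (j : C0 ⟶ C) (U V : C.Opens) :
    j ⁻¹ᵁ U ⊓ j ⁻¹ᵁ V ≤ j ⁻¹ᵁ (U ⊓ V) := le_rfl

variable [IsLocalRing A] [IsArtinianRing A] {C0 : Scheme.{0}}
  {p0 : C0 ⟶ Spec (.of (ResidueField A))} {j : C0 ⟶ C}

omit [IsArtinianRing A] in
theorem pl_eq_zero_iff (h : IsPullback j p0 p (Spec.map (CommRingCat.ofHom (residue A))))
    {U : C.Opens} (hU : IsAffineOpen U) {V : C0.Opens} (e : V = j ⁻¹ᵁ U) (b : Γ(C, U)) :
    pl j e.le b = 0 ↔ b ∈ (maximalIdeal A).map (alg p U) := by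
  subst e
  rw [(surj_ker_preimage h residue_surjective hU).2, ker_residue]

theorem cob_of_flat [Flat p] (h : IsPullback j p0 p (Spec.map (CommRingCat.ofHom (residue A))))
    {κ : Type} (W : κ → C.Opens) (h1 : ∀ i, IsAffineOpen (W i))
    (h2 : ∀ i l, IsAffineOpen (W i ⊓ W l)) (h3 : ∀ i l m, IsAffineOpen (W i ⊓ W l ⊓ W m))
    (h0 : Cob fun i => j ⁻¹ᵁ W i) : Cob W := by
  suffices H : ∀ (I : Ideal A) (c : ∀ i l, Γ(C, W i ⊓ W l)),
      (∀ i l, c i l ∈ I.map (alg p _)) →
      (∀ i l m, res (V := W i ⊓ W l ⊓ W m)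
        (le_inf (inf_le_left.trans inf_le_left) inf_le_right) (c i m)
        = res inf_le_left (c i l)
        + res (le_inf (inf_le_left.trans inf_le_right) inf_le_right) (c l m)) →
      ∃ b : ∀ i, Γ(C, W i), ∀ i l, c i l = res inf_le_left (b i) - res inf_le_right (b l) from
    fun c hc => H ⊤ c (fun i l => by rw [Ideal.map_top]; trivial) hc
  intro I
  induction I using WellFoundedLT.induction with
  | ind I ih =>
  intro c hI hc
  by_cases hb : I = ⊥
  · subst hb
    refine ⟨fun _ => 0, fun i l => ?_⟩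
    have := hI i l
    rw [Ideal.map_bot, Ideal.mem_bot] at this
    simp [this]
  obtain ⟨J, ε, hJ, hε, rfl, hm⟩ := exists_step hb
  choose d hd using fun i l => split_mem (hI i l)
  obtain ⟨b0, hb0⟩ := h0 (fun i l => pl j (pre_inf j _ _) (d i l))
    fun i l m => by
      have h4 : res (V := W i ⊓ W l ⊓ W m)
          (le_inf (inf_le_left.trans inf_le_left) inf_le_right) (d i m)
          - (res inf_le_left (d i l)
          + res (le_inf (inf_le_left.trans inf_le_right) inf_le_right) (d l m)) ∈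
          (maximalIdeal A).map (alg p _) := by
        refine mem_max_of_flat (flat_alg (h3 i l m)) hε ?_
        have e1 := res_mem (V := W i ⊓ W l ⊓ W m)
          (le_inf (inf_le_left.trans inf_le_left) inf_le_right) (hd i m)
        have e2 := res_mem (V := W i ⊓ W l ⊓ W m) inf_le_left (hd i l)
        have e3 := res_mem (V := W i ⊓ W l ⊓ W m)
          (le_inf (inf_le_left.trans inf_le_right) inf_le_right) (hd l m)
        have e4 := Ideal.sub_mem _ (Ideal.add_mem _ e2 e3) e1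
        simp only [map_sub, map_mul, res_alg] at e4
        rw [hc i l m] at e4
        refine (congrArg (· ∈ J.map (alg p (W i ⊓ W l ⊓ W m))) ?_).mp e4
        ring
      have h5 := (pl_eq_zero_iff h (h3 i l m)
        (V := j ⁻¹ᵁ W i ⊓ j ⁻¹ᵁ W l ⊓ j ⁻¹ᵁ W m) rfl _).mpr h4
      simp only [map_sub, map_add, pl_res] at h5
      simp only [res_pl]
      exact sub_eq_zero.mp h5
  choose b hb using fun i => (surj_ker_preimage h residue_surjective (h1 i)).1 (b0 i)
  have h6 : ∀ i l, d i l - (res inf_le_left (b i) - res inf_le_right (b l)) ∈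
      (maximalIdeal A).map (alg p _) := fun i l => by
    refine (pl_eq_zero_iff h (h2 i l) (V := j ⁻¹ᵁ W i ⊓ j ⁻¹ᵁ W l) rfl _).mp ?_
    have := hb0 i l
    simp only [← hb, res_pl] at this
    simp only [map_sub, pl_res]
    exact sub_eq_zero.mpr this
  obtain ⟨b', hb'⟩ := ih J hJ
    (fun i l => c i l - alg p _ ε * (res inf_le_left (b i) - res inf_le_right (b l)))
    (fun i l => by
      have e := Ideal.add_mem _ (hd i l) (mul_mem_of_max hm (h6 i l))
      refine (congrArg (· ∈ J.map (alg p (W i ⊓ W l))) ?_).mp e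
      ring)
    fun i l m => by
      simp only [map_sub, map_mul, res_alg, res_res]
      rw [hc i l m]
      ring
  refine ⟨fun i => b' i + alg p _ ε * b i, fun i l => ?_⟩
  have := hb' i l
  simp only [map_add, map_mul, res_alg]
  linear_combination this

theorem surj_of_flat [Flat p] (h : IsPullback j p0 p (Spec.map (CommRingCat.ofHom (residue A))))
    {κ : Type} (W : κ → C.Opens) (hW : iSup W = ⊤) (h1 : ∀ i, IsAffineOpen (W i))
    (h2 : ∀ i l, IsAffineOpen (W i ⊓ W l)) (h0 : Function.Surjective (pb p0)) :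
    Function.Surjective (pb p) := by
  suffices H : ∀ (I : Ideal A) (f : Γ(C, ⊤)),
      (∀ i, res (le_top : W i ≤ ⊤) f ∈ I.map (alg p _)) → ∃ a, pb p a = f from
    fun f => H ⊤ f fun i => by rw [Ideal.map_top]; trivial
  intro I
  induction I using WellFoundedLT.induction with
  | ind I ih =>
  intro f hI
  by_cases hb : I = ⊥
  · subst hb
    refine ⟨0, eq_of_cover W (fun _ => le_top) hW.ge fun i => ?_⟩
    have := hI i
    rw [Ideal.map_bot, Ideal.mem_bot] at this
    simp [this]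
  obtain ⟨J, ε, hJ, hε, rfl, hm⟩ := exists_step hb
  choose d hd using fun i => split_mem (hI i)
  obtain ⟨g, hg⟩ := exists_glue (V := ⊤) (fun i => j ⁻¹ᵁ W i) (fun _ => le_top)
    (j.iSup_preimage_eq_top hW).ge (fun i => pl j le_rfl (d i)) fun i l => by
      have h4 : res (inf_le_left : W i ⊓ W l ≤ _) (d i) - res inf_le_right (d l) ∈
          (maximalIdeal A).map (alg p _) := by
        refine mem_max_of_flat (flat_alg (h2 i l)) hε ?_
        have e1 := res_mem (inf_le_left : W i ⊓ W l ≤ _) (hd i)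
        have e2 := res_mem (inf_le_right : W i ⊓ W l ≤ _) (hd l)
        have e4 := Ideal.sub_mem _ e2 e1
        simp only [map_sub, map_mul, res_alg, res_res] at e4
        refine (congrArg (· ∈ J.map (alg p (W i ⊓ W l))) ?_).mp e4
        ring
      have h5 := (pl_eq_zero_iff h (h2 i l) (V := j ⁻¹ᵁ W i ⊓ j ⁻¹ᵁ W l) rfl _).mpr h4
      simp only [map_sub, pl_res] at h5
      simp only [res_pl]
      exact sub_eq_zero.mp h5
  obtain ⟨a0, rfl⟩ := h0 g
  obtain ⟨a, rfl⟩ := residue_surjective a0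
  have h6 : ∀ i, d i - alg p _ a ∈ (maximalIdeal A).map (alg p (W i)) := fun i => by
    refine (pl_eq_zero_iff h (h1 i) rfl _).mp ?_
    rw [map_sub, pl_alg, h.w, alg_spec, sub_eq_zero]
    exact (hg i).symm
  obtain ⟨a', ha'⟩ := ih J hJ (f - pb p (ε * a)) fun i => by
    have e := Ideal.add_mem _ (hd i) (mul_mem_of_max hm (h6 i))
    refine (congrArg (· ∈ J.map (alg p (W i))) ?_).mp e
    rw [map_sub, ← alg_top, res_alg, map_mul]
    ring
  exact ⟨a' + ε * a, by rw [map_add, ha', sub_add_cancel]⟩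

end Geo

theorem dev (hL : SLeray) : SDev := by
  intro A _ _ _ F F0 j _ _ h
  let W : F.C.affineOpens → F.C.Opens := fun U => U.1
  have hW : iSup W = ⊤ := iSup_affineOpens_eq_top F.C
  have h1 : ∀ i, IsAffineOpen (W i) := fun U => U.2
  have h2 : ∀ i l, IsAffineOpen (W i ⊓ W l) := fun i l => aff_inf F.π (h1 i) (h1 l)
  exact ⟨fun h0 => hL _ _ W h1 hW (cob_of_flat h.1 W h1 h2
      (fun i l m => aff_inf F.π (h2 i l) (h1 m)) (h0 _ _ (j.iSup_preimage_eq_top hW))),
    surj_of_flat h.1 W hW h1 h2⟩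

end Pool.Agent.MP_52bf41_ag.H57
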